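import Pool.Agent.helper14.AU.Spec
import Pool.Agent.helper39.SGE.M10

/-!
# Project au: module PD (the word written by the reduction)
-/

set_option autoImplicit false

namespace Pool.Agent.helper14.AU

open N68a2faeb N793a5b8e Pool.Agent.helper56.SGE Pool.Agent.helper56.SGE.QSys
  Pool.Agent.helper98.Tsei Pool.Agent.H54.PT

theorem PD_rep (n : ℕ) : (List.range n).flatMap (fun _ => [true]) = List.replicate n true := by
  induction n with
  | zero => rfl
  | succ n ih => rw [List.range_succ, List.flatMap_append, ih, List.replicate_succ']; rfl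

theorem PD_unary {e : Fn} (he : Cp e) : Dp (fun x v => unary (e x v)) := by
  refine ((Dp.forE' (w := fun _ _ _ => [true]) he (Dp.const [true])).append
    (Dp.const [false])).congr fun x v => ?_
  unfold unary
  rw [PD_rep]

theorem PD_tri {a b c : Fn} (ha : Cp a) (hb : Cp b) (hc : Cp c) :
    Dp (fun x v => unary (a x v) ++ (unary (b x v) ++ unary (c x v))) :=
  (PD_unary ha).append ((PD_unary hb).append (PD_unary hc))

theorem PD_trip {b k p q r : Fn} (hb : Cp b) (hk : Cp k) (hp : Cp p) (hq : Cp q) (hr : Cp r) :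
    Dp (fun x v => code (trip (b x v) (k x v, p x v, q x v, r x v))) := by
  classical
  have hmin := hp.min hq
  have hmax := hp.max hq
  have hb1 := hb.add (Cp.const 1)
  have hb2 := hb.add (Cp.const 2)
  have hb3 := hb.add (Cp.const 3)
  have hb4 := hb.add (Cp.const 4)
  refine (Dp.iteP (Cq.eq hk (Cp.const 0))
    ((PD_tri hmin hmax hb).append ((PD_tri hmin hmax hb1).append ((PD_tri hr hb hb2).append
      ((PD_tri hr hb1 hb2).append ((PD_tri hb hb1 hb3).append (PD_tri hr hb2 hb4))))))
    (Dp.iteP (Cq.eq hk (Cp.const 1)) (PD_tri hmin hmax hb)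
      (Dp.iteP (Cq.eq hk (Cp.const 2))
        ((PD_tri hmin hmax hb).append ((PD_tri (hp.min hr) (hp.max hr) hb1).append
          (PD_tri hp hb hb1)))
        ((PD_tri hmin hmax hb).append (PD_tri (hq.min hr) (hq.max hr) hb))))).congr
    fun x v => ?_
  unfold trip code mk
  split_ifs <;> simp

theorem PD_flat (N0 G : ℕ) (it : ℕ → Item) :
    code (sysT N0 G it) = (List.range G).flatMap fun g =>
      code (trip (N0 + 5 * g) ((it g).1, (it g).2.1, (it g).2.2.1, (it g).2.2.2)) := by
  unfold code sysT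
  rw [List.flatMap_assoc]

theorem PD (hPU : PU_stmt) (hPI : PI_stmt) : PD_stmt := by
  classical
  obtain ⟨hnv, hm, _, _⟩ := hPU
  obtain ⟨h1, h2, h3, h4⟩ := hPI
  have hR : Cp (fun x _ => nR (sysU x)) := hnv.add (Cp.const 2)
  have hN0 : Cp (fun x _ => nN0 (sysU x)) :=
    ((Cp.const 4).add ((Cp.const 5).mul hR)).add hm
  have hG : Cp (fun x _ => nG (sysU x)) :=
    ((Cp.const 11).add ((Cp.const 13).mul hR)).add ((Cp.const 3).mul hm)
  refine (Dp.forE' (w := fun x _ g => code (trip (nN0 (sysU x) + 5 * g)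
    ((itemOf (sysU x) (MU x) g).1, (itemOf (sysU x) (MU x) g).2.1,
      (itemOf (sysU x) (MU x) g).2.2.1, (itemOf (sysU x) (MU x) g).2.2.2))) hG ?_).congr
    fun x v => ?_
  · exact PD_trip (hN0.add ((Cp.const 5).mul (Cp.var 0))) h1 h2 h3 h4
  · unfold sysW
    rw [PD_flat]

end Pool.Agent.helper14.AU
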